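import Pool.Agent.Lib.MP_7ed69f_al.Reps

/-!
Companion to the disproof of the polynomial-dimension statement (MP_7ed69f_al), `N = 3`, `r = 2`:
the dimension `q^3 (q + 1) (q^2 + q + 1)` occurs for every discrete valuation ring with finite
residue field of odd cardinality `q`, and no irreducible representation of `GL_3(R/m^2)` has
dimension larger than `84` if the residue field has two elements.
-/

set_option autoImplicit false

namespace Pool.Agent.Results.MP_7ed69f_al.ResidueFieldTwo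

open Pool.Agent.Lib.MP_7ed69f_al IsLocalRing

/-- The truncated ring `R/m^r` of a local ring `R` with maximal ideal `m`. -/
abbrev Trunc (R : Type) [CommRing R] [IsLocalRing R] (r : ℕ) : Type := R ⧸ maximalIdeal R ^ r

/-- The reduction map `R/m^r → R/m^(r-1)`. -/
def reduce (R : Type) [CommRing R] [IsLocalRing R] (r : ℕ) : Trunc R r →+* Trunc R (r - 1) :=
  Ideal.Quotient.factor (Ideal.pow_le_pow_right (Nat.sub_le r 1))

/-- `K^(r-1)`: the kernel of `GL_N(R/m^r) → GL_N(R/m^(r-1))`. -/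
def congruenceKernel (N r : ℕ) (R : Type) [CommRing R] [IsLocalRing R] :
    Subgroup (Matrix.GeneralLinearGroup (Fin N) (Trunc R r)) :=
  (Matrix.GeneralLinearGroup.map (reduce R r)).ker

/-- A complex representation on a nonzero space without invariant subspaces other than
`0` and the whole space. -/
def Irred {G V : Type} [Group G] [AddCommGroup V] [Module ℂ V] (ρ : Representation ℂ G V) : Prop :=
  Nontrivial V ∧ ∀ W : Submodule ℂ V, (∀ g v, v ∈ W → ρ g v ∈ W) → W = ⊥ ∨ W = ⊤

/-- The set of the dimensions of the irreducible complex representations of `GL_N(R/m^r)`. -/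
def allDims (N r : ℕ) (R : Type) [CommRing R] [IsLocalRing R] : Set ℕ :=
  {n | ∃ (V : Type) (_ : AddCommGroup V) (_ : Module ℂ V) (_ : FiniteDimensional ℂ V)
    (ρ : Representation ℂ (Matrix.GeneralLinearGroup (Fin N) (Trunc R r)) V),
    Irred ρ ∧ Module.finrank ℂ V = n}

/-- The set `D_{N,r}(R)` of the dimensions of the primitive irreducible complex representations
of `GL_N(R/m^r)`, those which are not trivial on `K^(r-1)`. -/
def primDims (N r : ℕ) (R : Type) [CommRing R] [IsLocalRing R] : Set ℕ :=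
  {n | ∃ (V : Type) (_ : AddCommGroup V) (_ : Module ℂ V) (_ : FiniteDimensional ℂ V)
    (ρ : Representation ℂ (Matrix.GeneralLinearGroup (Fin N) (Trunc R r)) V),
    Irred ρ ∧ (∃ g ∈ congruenceKernel N r R, ρ g ≠ 1) ∧ Module.finrank ℂ V = n}

/-- The cardinality of the residue field. -/
noncomputable def resCard (R : Type) [CommRing R] [IsLocalRing R] : ℕ :=
  Nat.card (ResidueField R)

section DVR

variable (R : Type) [CommRing R] [IsDomain R] [IsDiscreteValuationRing R]

/-- The map `R/m^2 → R/m`. -/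
noncomputable def pi2 : Trunc R 2 →+* ResidueField R :=
  Ideal.Quotient.lift _ (residue R) (by
    intro a ha
    exact (residue_eq_zero_iff a).2 (Ideal.pow_le_self two_ne_zero ha))

theorem pi2_mk (a : R) : pi2 R (Ideal.Quotient.mk _ a) = residue R a := rfl

theorem pi2_zero (x : Trunc R 2) (hx : pi2 R x = 0) :
    ∃ a ∈ maximalIdeal R, x = Ideal.Quotient.mk _ a := by
  obtain ⟨a, rfl⟩ := Ideal.Quotient.mk_surjective x
  exact ⟨a, (residue_eq_zero_iff a).1 (by rwa [pi2_mk] at hx), rfl⟩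

theorem pi2_surjective : Function.Surjective (pi2 R) := by
  intro z
  obtain ⟨a, ha⟩ := residue_surjective (R := R) z
  exact ⟨Ideal.Quotient.mk _ a, ha⟩

theorem pi2_sqZero : SqZero (pi2 R) := by
  intro x y hx hy
  obtain ⟨a, ha, rfl⟩ := pi2_zero R x hx
  obtain ⟨b, hb, rfl⟩ := pi2_zero R y hy
  rw [← map_mul, Ideal.Quotient.eq_zero_iff_mem, pow_two]
  exact Ideal.mul_mem_mul ha hb

theorem exists_gen : ∃ x₀ : Trunc R 2, pi2 R x₀ = 0 ∧ x₀ ≠ 0 ∧
    ∀ x : Trunc R 2, pi2 R x = 0 → ∃ a : Trunc R 2, x = x₀ * a := by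
  obtain ⟨w, hw⟩ := IsDiscreteValuationRing.exists_irreducible R
  have hm : maximalIdeal R = Ideal.span {w} := hw.maximalIdeal_eq
  refine ⟨Ideal.Quotient.mk _ w, ?_, ?_, ?_⟩
  · rw [pi2_mk, residue_eq_zero_iff, hm]
    exact Ideal.mem_span_singleton_self w
  · intro h
    rw [Ideal.Quotient.eq_zero_iff_mem, hm, Ideal.span_singleton_pow,
      Ideal.mem_span_singleton] at h
    obtain ⟨c, hc⟩ := h
    have h1 : w * (w * c) = w * 1 := by rw [mul_one]; rw [pow_two, mul_assoc] at hc; exact hc.symm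
    have h2 := mul_left_cancel₀ hw.ne_zero h1
    exact hw.not_isUnit (IsUnit.of_mul_eq_one c h2)
  · intro x hx
    obtain ⟨a, ha, rfl⟩ := pi2_zero R x hx
    rw [hm, Ideal.mem_span_singleton] at ha
    obtain ⟨c, rfl⟩ := ha
    exact ⟨Ideal.Quotient.mk _ c, by rw [map_mul]⟩

theorem finite_trunc [Finite (ResidueField R)] : Finite (Trunc R 2) := by
  obtain ⟨w, hw⟩ := IsDiscreteValuationRing.exists_irreducible R
  have hm : maximalIdeal R = Ideal.span {w} := hw.maximalIdeal_eq
  have h1 : (maximalIdeal R).FG := by rw [hm]; exact ⟨{w}, by simp⟩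
  have h2 : Finite (R ⧸ maximalIdeal R) := inferInstanceAs (Finite (ResidueField R))
  exact Ideal.finite_quotient_pow h1 2

/-- For odd `q` the dimension `q^3 (q+1) (q^2+q+1)` occurs. -/
theorem odd_mem [Finite (ResidueField R)] (hq : Odd (resCard R)) :
    resCard R ^ 3 * (resCard R + 1) * (resCard R ^ 2 + resCard R + 1) ∈ primDims 3 2 R := by
  have hA := finite_trunc R
  obtain ⟨x₀, hx₀, hne, -⟩ := exists_gen R
  have h2 : (2 : ResidueField R) ≠ 0 := by
    intro h
    have hF : Fintype (ResidueField R) := Fintype.ofFinite _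
    have hch : CharP (ResidueField R) 2 := CharTwo.of_one_ne_zero_of_two_eq_zero one_ne_zero h
    have h3 : Nat.card (ResidueField R) % 2 = 0 := by
      rw [Nat.card_eq_fintype_card]
      obtain ⟨n, -, hn⟩ := FiniteField.card (ResidueField R) 2
      rw [hn]
      exact Nat.mod_eq_zero_of_dvd (dvd_pow_self 2 n.ne_zero)
    have h4 := Nat.odd_iff.1 hq
    rw [resCard] at h4
    omega
  obtain ⟨V, i1, i2, ρ, hfd, hnt, hirr, ⟨g, hgk, hg1⟩, hfr⟩ :=
    exists_big (pi2_surjective R) (pi2_sqZero R) h2 x₀ hx₀ hne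
  refine ⟨V, i1, i2, hfd, ρ, ⟨hnt, hirr⟩, ⟨g, ?_, hg1⟩, hfr⟩
  rw [congruenceKernel, MonoidHom.mem_ker]
  ext i j
  rw [mem_ker_iff] at hgk
  obtain ⟨a, ha, hae⟩ := pi2_zero R _ (hgk i j)
  have h5 : reduce R 2 (g.val i j - (1 : Matrix (Fin 3) (Fin 3) (Trunc R 2)) i j) = 0 := by
    rw [show g.val i j - (1 : Matrix (Fin 3) (Fin 3) (Trunc R 2)) i j = Ideal.Quotient.mk _ a from
      by simpa using hae]
    show Ideal.Quotient.mk (maximalIdeal R ^ (2 - 1)) a = 0
    rw [Ideal.Quotient.eq_zero_iff_mem]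
    simpa using ha
  rw [map_sub, sub_eq_zero] at h5
  show reduce R 2 (g.val i j) = (1 : Matrix (Fin 3) (Fin 3) (Trunc R (2 - 1))) i j
  rw [h5, Matrix.one_apply, Matrix.one_apply]
  split_ifs <;> simp

/-- For `q = 2` no irreducible representation of `GL_3(R/m^2)` has dimension above `84`. -/
theorem even_le (hq : resCard R = 2) (n : ℕ) (hn : n ∈ allDims 3 2 R) : n ≤ 84 := by
  have hfin : Finite (ResidueField R) := by
    apply Nat.finite_of_card_ne_zero
    rw [show Nat.card (ResidueField R) = 2 from hq]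
    norm_num
  have hF : Fintype (ResidueField R) := Fintype.ofFinite _
  have hA := finite_trunc R
  obtain ⟨x₀, hx₀, -, hgen⟩ := exists_gen R
  have hc : Fintype.card (ResidueField R) = 2 := by
    rw [← Nat.card_eq_fintype_card]; exact hq
  let e : ZMod 2 ≃+* ResidueField R := ZMod.ringEquivOfPrime (ResidueField R) Nat.prime_two hc
  let π : Trunc R 2 →+* ZMod 2 := (e.symm : ResidueField R →+* ZMod 2).comp (pi2 R)
  have hπ : ∀ x, π x = 0 ↔ pi2 R x = 0 := by
    intro x
    show e.symm (pi2 R x) = 0 ↔ _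
    exact e.symm.map_eq_zero_iff
  have hs : Function.Surjective π := e.symm.surjective.comp (pi2_surjective R)
  have h0 : SqZero π := fun x y hx hy => pi2_sqZero R x y ((hπ x).1 hx) ((hπ y).1 hy)
  obtain ⟨V, i1, i2, hfd, ρ, ⟨hnt, hirr⟩, hfr⟩ := hn
  rw [← hfr]
  exact small_bound hs h0 x₀ ((hπ _).2 hx₀) (fun x hx => hgen x ((hπ x).1 hx)) ρ hirr

end DVR

theorem primDims_subset (N r : ℕ) (R : Type) [CommRing R] [IsLocalRing R] :
    primDims N r R ⊆ allDims N r R := by
  rintro n ⟨V, i1, i2, i3, ρ, h, -, hn⟩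
  exact ⟨V, i1, i2, i3, ρ, h, hn⟩

/-- The polynomial `X^3 (X + 1) (X^2 + X + 1)`. -/
noncomputable def fpoly : Polynomial ℚ :=
  Polynomial.X ^ 3 * (Polynomial.X + 1) * (Polynomial.X ^ 2 + Polynomial.X + 1)

theorem fpoly_eval (q : ℕ) : fpoly.eval (q : ℚ) = ((q ^ 3 * (q + 1) * (q ^ 2 + q + 1) : ℕ) : ℚ) := by
  simp [fpoly]

theorem resCard_padic (p : ℕ) [Fact p.Prime] : resCard ℤ_[p] = p := by
  rw [resCard, Nat.card_congr (PadicInt.residueField (p := p)).toEquiv, Nat.card_zmod]

theorem finite_padic (p : ℕ) [Fact p.Prime] : Finite (ResidueField ℤ_[p]) :=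
  Finite.of_equiv _ (PadicInt.residueField (p := p)).toEquiv.symm

/-- No finite set of polynomials is right both for infinitely many odd `q` and for `q = 2`. -/
theorem dichotomy (P : Finset (Polynomial ℚ)) :
    (∃ M : ℕ, ∀ (R : Type) [CommRing R] [IsDomain R] [IsDiscreteValuationRing R]
        [Finite (ResidueField R)], Odd (resCard R) → M < resCard R →
        ∃ n ∈ primDims 3 2 R, ∀ d ∈ P, d.eval (resCard R : ℚ) ≠ (n : ℚ)) ∨
      (∀ (R : Type) [CommRing R] [IsDomain R] [IsDiscreteValuationRing R],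
        resCard R = 2 → ∃ d ∈ P, ∀ n ∈ allDims 3 2 R, d.eval (2 : ℚ) ≠ (n : ℚ)) := by
  by_cases hf : fpoly ∈ P
  · right
    intro R _ _ _ hq
    refine ⟨fpoly, hf, fun n hn h => ?_⟩
    have h1 := even_le R hq n hn
    have h2 := fpoly_eval 2
    rw [show ((2 : ℕ) : ℚ) = 2 by norm_num, h] at h2
    have h3 : n = 168 := by exact_mod_cast h2
    omega
  · left
    have hfin : ∀ d ∈ P, {x : ℚ | d.eval x = fpoly.eval x}.Finite := by
      intro d hd
      by_contra hinf
      exact hf (Polynomial.eq_of_infinite_eval_eq d fpoly hinf ▸ hd)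
    have hU : (⋃ d ∈ P, {x : ℚ | d.eval x = fpoly.eval x}).Finite :=
      P.finite_toSet.biUnion hfin
    have hN : {q : ℕ | (q : ℚ) ∈ ⋃ d ∈ P, {x : ℚ | d.eval x = fpoly.eval x}}.Finite :=
      hU.preimage Nat.cast_injective.injOn
    obtain ⟨M, hM⟩ := hN.bddAbove
    refine ⟨M, ?_⟩
    intro R _ _ _ _ hodd hlt
    refine ⟨_, odd_mem R hodd, fun d hd h => ?_⟩
    rw [← fpoly_eval] at h
    have h1 : resCard R ≤ M := hM (by
      show ((resCard R : ℕ) : ℚ) ∈ ⋃ d ∈ P, {x : ℚ | d.eval x = fpoly.eval x}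
      simp only [Set.mem_iUnion]
      exact ⟨d, hd, h⟩)
    omega

/-- `N = 3`, `r = 2`. (1) For odd `q` the set `D_{3,2}(R)` contains `q^3 (q+1) (q^2+q+1)`.
(2) For `q = 2` all irreducible representations of `GL_3(R/m^2)` have dimension at most `84`.
(3) For each finite set `P` of rational polynomials, either `D_{3,2}(R)` is not contained in the
set of the values `d(q)`, `d` in `P`, for all `R` with `q` odd and large, or, for all `R` with
`q = 2`, some `d(2)` is not a dimension. (4) In particular `D_{3,2}(ℤ_p)` differs from the set of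
the values at `p` of the polynomials in `P`, for some prime `p`. -/
theorem result :
    (∀ (R : Type) [CommRing R] [IsDomain R] [IsDiscreteValuationRing R]
        [Finite (ResidueField R)], Odd (resCard R) →
        resCard R ^ 3 * (resCard R + 1) * (resCard R ^ 2 + resCard R + 1) ∈ primDims 3 2 R) ∧
    (∀ (R : Type) [CommRing R] [IsDomain R] [IsDiscreteValuationRing R],
        resCard R = 2 → ∀ n ∈ allDims 3 2 R, n ≤ 84) ∧
    (∀ P : Finset (Polynomial ℚ),
      (∃ M : ℕ, ∀ (R : Type) [CommRing R] [IsDomain R] [IsDiscreteValuationRing R]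
          [Finite (ResidueField R)], Odd (resCard R) → M < resCard R →
          ∃ n ∈ primDims 3 2 R, ∀ d ∈ P, d.eval (resCard R : ℚ) ≠ (n : ℚ)) ∨
        (∀ (R : Type) [CommRing R] [IsDomain R] [IsDiscreteValuationRing R],
          resCard R = 2 → ∃ d ∈ P, ∀ n ∈ allDims 3 2 R, d.eval (2 : ℚ) ≠ (n : ℚ))) ∧
    (∀ P : Finset (Polynomial ℚ), ∃ (p : ℕ) (_ : Fact p.Prime),
      {x : ℚ | ∃ n ∈ primDims 3 2 ℤ_[p], x = n} ≠ {x : ℚ | ∃ d ∈ P, x = d.eval (p : ℚ)}) := by
  refine ⟨fun R _ _ _ _ h => odd_mem R h, fun R _ _ _ h => even_le R h, dichotomy, fun P => ?_⟩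
  rcases dichotomy P with ⟨M, hM⟩ | h2
  · obtain ⟨p, hp1, hp2⟩ := Nat.exists_infinite_primes (M + 3)
    have hp : Fact p.Prime := ⟨hp2⟩
    have := finite_padic p
    have hodd : Odd (resCard ℤ_[p]) := by
      rw [resCard_padic]
      exact hp2.odd_of_ne_two (by omega)
    obtain ⟨n, hn, hd⟩ := hM ℤ_[p] hodd (by rw [resCard_padic]; omega)
    refine ⟨p, hp, fun h => ?_⟩
    have h3 : (n : ℚ) ∈ {x : ℚ | ∃ d ∈ P, x = d.eval (p : ℚ)} := by
      rw [← h]
      exact ⟨n, hn, rfl⟩
    obtain ⟨d, hdP, hde⟩ := h3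
    have h4 := hd d hdP
    rw [resCard_padic] at h4
    exact h4 hde.symm
  · have hp : Fact (Nat.Prime 2) := ⟨Nat.prime_two⟩
    obtain ⟨d, hdP, hd⟩ := h2 ℤ_[2] (resCard_padic 2)
    refine ⟨2, hp, fun h => ?_⟩
    have h3 : d.eval (2 : ℚ) ∈ {x : ℚ | ∃ n ∈ primDims 3 2 ℤ_[2], x = n} := by
      rw [h]
      exact ⟨d, hdP, by norm_num⟩
    obtain ⟨n, hn, hne⟩ := h3
    exact hd n (primDims_subset 3 2 _ hn) hne

end Pool.Agent.Results.MP_7ed69f_al.ResidueFieldTwo
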